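import Pool.Agent.V1186.HB

set_option autoImplicit false

namespace Pool.Agent.Results.MP_28939e_an.NoFixedOrdering

/-- The class `F_{μ,L}(E)` of differentiable, `μ`-strongly convex functions on `E` whose gradient
is `L`-Lipschitz. -/
def SmoothStrong (E : Type) [NormedAddCommGroup E] [InnerProductSpace ℝ E] [CompleteSpace E]
    (μ L : ℝ) : Set (E → ℝ) :=
  {f | Differentiable ℝ f ∧ StrongConvexOn Set.univ μ f ∧
    ∀ x y : E, ‖gradient f x - gradient f y‖ ≤ L * ‖x - y‖}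

/-- `x` (indexed modulo `K`) is a cycle of length `K` of the heavy-ball method with parameters
`γ, β` on the class `F_{μ,L}(E)`: its points are not all equal and for some `f` in the class,
`x_{i+1} = x_i - γ ∇f(x_i) + β (x_i - x_{i-1})` for all `i`, indices being read modulo `K`; that
is, the sequence generated from `(x_0, x_1)` is `x_{t mod K}`. -/
def IsCycle (E : Type) [NormedAddCommGroup E] [InnerProductSpace ℝ E] [CompleteSpace E]
    (μ L γ β : ℝ) (K : ℕ) (x : ZMod K → E) : Prop :=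
  (∃ i j : ZMod K, x i ≠ x j) ∧ ∃ f ∈ SmoothStrong E μ L, ∀ i : ZMod K,
    x (i + 1) = x i - γ • gradient f (x i) + β • (x i - x (i - 1))

/-- The set `Ω` of tunings `(γ, β)` for which a cycle of some length `K ≥ 3` exists on
`F_{μ,L}(ℝ^d)` for some `d ≥ 1`. -/
def Omega (μ L : ℝ) : Set (ℝ × ℝ) :=
  {p | ∃ d : ℕ, 1 ≤ d ∧ ∃ K : ℕ, 3 ≤ K ∧ ∃ x : ZMod K → EuclideanSpace ℝ (Fin d),
    IsCycle (EuclideanSpace ℝ (Fin d)) μ L p.1 p.2 K x}

/-- The permutation `σ_K` of `{0, …, K-1}`: `σ_K(0) = 0`, and `(σ_K(1), …, σ_K(K-1))` are the odd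
integers of `[1, K-1]` in increasing order followed by the even integers of `[2, K-1]` in
decreasing order. -/
def sigma (K j : ℕ) : ℕ := if j = 0 then 0 else if j ≤ K / 2 then 2 * j - 1 else 2 * (K - j)

/-- The one-dimensional tuple `x` is `σ_K`-ordered. -/
def SigmaOrdered (K : ℕ) (x : ZMod K → ℝ) : Prop :=
  ∀ i j : ZMod K, sigma K i.val < sigma K j.val → x i ≤ x j

example : (List.range 5).map (sigma 5) = [0, 1, 3, 4, 2] := by decide
example : (List.range 4).map (sigma 4) = [0, 1, 3, 2] := by decide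

/-! ### From the line to `ℝ^1` -/

lemma norm_fin1 (v : EuclideanSpace ℝ (Fin 1)) : ‖v‖ = |v 0| := by
  rw [EuclideanSpace.norm_eq]
  simp [Real.sqrt_sq_eq_abs]

lemma gradient_lift {f : ℝ → ℝ} (hf : Differentiable ℝ f) (v : EuclideanSpace ℝ (Fin 1)) :
    HasGradientAt (fun v : EuclideanSpace ℝ (Fin 1) => f (v 0))
      (EuclideanSpace.single 0 (deriv f (v 0))) v := by
  rw [hasGradientAt_iff_hasFDerivAt]
  have h1 : HasFDerivAt (fun v : EuclideanSpace ℝ (Fin 1) => v 0)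
      (EuclideanSpace.proj (0 : Fin 1) : EuclideanSpace ℝ (Fin 1) →L[ℝ] ℝ) v :=
    (EuclideanSpace.proj (0 : Fin 1) : EuclideanSpace ℝ (Fin 1) →L[ℝ] ℝ).hasFDerivAt
  have h2 := (hf (v 0)).hasDerivAt.comp_hasFDerivAt v h1
  refine h2.congr_fderiv ?_
  ext w
  simp [EuclideanSpace.inner_single_left]

lemma lift_mem {μ L : ℝ} {f : ℝ → ℝ} (hf : Differentiable ℝ f)
    (h : ∀ a b : ℝ, a ≤ b → μ * (b - a) ≤ deriv f b - deriv f a ∧
      deriv f b - deriv f a ≤ L * (b - a)) (hμ : 0 ≤ μ) :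
    (fun v : EuclideanSpace ℝ (Fin 1) => f (v 0)) ∈
      SmoothStrong (EuclideanSpace ℝ (Fin 1)) μ L := by
  refine ⟨fun v => (gradient_lift hf v).differentiableAt, ?_, ?_⟩
  · have h1 := V1186.HB.strongConvex_of_slopes hf (fun a b hab => (h a b hab).1)
    rw [strongConvexOn_iff_convex] at h1 ⊢
    have h2 := h1.comp_linearMap
      (EuclideanSpace.proj (0 : Fin 1) : EuclideanSpace ℝ (Fin 1) →L[ℝ] ℝ).toLinearMap
    rw [Set.preimage_univ] at h2
    convert h2 using 1
    funext v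
    rw [norm_fin1]
    simp
  · intro v w
    rw [(gradient_lift hf v).gradient, (gradient_lift hf w).gradient]
    have e : EuclideanSpace.single (0 : Fin 1) (deriv f (v 0))
        - EuclideanSpace.single (0 : Fin 1) (deriv f (w 0))
        = EuclideanSpace.single (0 : Fin 1) (deriv f (v 0) - deriv f (w 0)) := by
      ext i; fin_cases i; simp
    rw [e, norm_fin1, norm_fin1]
    simp only [PiLp.single_apply, if_true, PiLp.sub_apply]
    have key : ∀ a b : ℝ, a ≤ b → |deriv f a - deriv f b| ≤ L * |a - b| := by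
      intro a b hab
      have h0 : 0 ≤ μ * (b - a) := mul_nonneg hμ (by linarith)
      obtain ⟨h1, h2⟩ := h a b hab
      rw [abs_sub_comm, abs_sub_comm a b, abs_of_nonneg (by linarith : 0 ≤ b - a),
        abs_of_nonneg (by linarith : 0 ≤ deriv f b - deriv f a)]
      exact h2
    rcases le_total (v 0) (w 0) with hab | hab
    · exact key _ _ hab
    · rw [abs_sub_comm, abs_sub_comm (v 0)]; exact key _ _ hab

/-- Slope bounds for the derivative of a function of the class on the line. -/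
lemma slopes {μ L : ℝ} {f : ℝ → ℝ} (hf : f ∈ SmoothStrong ℝ μ L) {a b : ℝ} (hab : a ≤ b) :
    μ * (b - a) ≤ deriv f b - deriv f a ∧ deriv f b - deriv f a ≤ L * (b - a) := by
  refine ⟨V1186.HB.slopes_of_strongConvex hf.1 hf.2.1 a b hab, ?_⟩
  have := hf.2.2 b a
  rw [gradient_eq_deriv', gradient_eq_deriv', Real.norm_eq_abs, Real.norm_eq_abs,
    abs_of_nonneg (by linarith : 0 ≤ b - a)] at this
  exact (le_abs_self _).trans this

/-- No `σ_K`-ordered cycle, of any length, when `γ μ > 2 + β` and `0 < β ≤ 1`. -/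
lemma noOrdered {μ L γ β : ℝ} (hγ : 0 < γ) (hμ : 0 < μ) (hβ0 : 0 < β) (hβ1 : β ≤ 1)
    (hq : 2 + β < γ * μ) {K : ℕ} (hK : 3 ≤ K) {x : ZMod K → ℝ}
    (hc : IsCycle ℝ μ L γ β K x) (hp : SigmaOrdered K x) : False := by
  obtain ⟨n, rfl⟩ : ∃ n, K = n + 3 := ⟨K - 3, by omega⟩
  obtain ⟨⟨i, j, hij⟩, f, hf, step⟩ := hc
  obtain ⟨xs, hxs⟩ := V1186.HB.exists_crit hμ (fun a b hab => slopes hf hab)
  apply hij
  have hv1 : (1 : ZMod (n + 3)).val = 1 := ZMod.val_one'' (by omega)
  have hvm : (-1 : ZMod (n + 3)).val = n + 2 := ZMod.val_neg_one (n + 2)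
  have r0 : sigma (n + 3) 0 = 0 := rfl
  have r1 : sigma (n + 3) 1 = 1 := by
    unfold sigma; rw [if_neg (by omega), if_pos (by omega)]
  have rm : sigma (n + 3) (n + 2) = 2 := by
    unfold sigma; rw [if_neg (by omega), if_neg (by omega)]; omega
  have hm : ∀ a b : ℝ, a ≤ b → γ * μ * (b - a) ≤ γ * deriv f b - γ * deriv f a := by
    intro a b hab
    have := mul_le_mul_of_nonneg_left (slopes hf hab).1 hγ.le
    linarith
  refine V1186.HB.no_sorted (xs := xs) x (fun i => γ * deriv f (x i)) hβ0 hβ1 hq ?_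
    (fun i j hij => hm _ _ hij) ?_ ?_ ?_ ?_ ?_ i j
  · intro i
    have := step i
    rw [gradient_eq_deriv', smul_eq_mul, smul_eq_mul] at this
    exact this
  · intro i hi
    have := hm _ _ hi
    rw [hxs] at this; linarith
  · intro i hi
    have := hm _ _ hi
    rw [hxs] at this; linarith
  · apply hp
    rw [ZMod.val_zero, hv1, r0, r1]; omega
  · apply hp
    rw [hv1, hvm, r1, rm]; omega
  · intro i h0 h1 hm1
    apply hp
    rw [hvm, rm]
    have hlt : i.val < n + 3 := ZMod.val_lt i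
    have n0 : i.val ≠ 0 := fun h => h0 ((ZMod.val_eq_zero i).mp h)
    have n1 : i.val ≠ 1 := fun h => h1 (ZMod.val_injective _ (by rw [h, hv1]))
    have nm : i.val ≠ n + 2 := fun h => hm1 (ZMod.val_injective _ (by rw [h, hvm]))
    unfold sigma
    rw [if_neg n0]
    split_ifs <;> omega

lemma line_mem {μ L : ℝ} {f : ℝ → ℝ} (hf : Differentiable ℝ f)
    (h : ∀ a b : ℝ, a ≤ b → μ * (b - a) ≤ deriv f b - deriv f a ∧
      deriv f b - deriv f a ≤ L * (b - a)) (hμ : 0 ≤ μ) : f ∈ SmoothStrong ℝ μ L := by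
  refine ⟨hf, V1186.HB.strongConvex_of_slopes hf (fun a b hab => (h a b hab).1), ?_⟩
  intro v w
  rw [gradient_eq_deriv', gradient_eq_deriv', Real.norm_eq_abs, Real.norm_eq_abs]
  have key : ∀ a b : ℝ, a ≤ b → |deriv f a - deriv f b| ≤ L * |a - b| := by
    intro a b hab
    have h0 : 0 ≤ μ * (b - a) := mul_nonneg hμ (by linarith)
    obtain ⟨h1, h2⟩ := h a b hab
    rw [abs_sub_comm, abs_sub_comm a b, abs_of_nonneg (by linarith : 0 ≤ b - a),
      abs_of_nonneg (by linarith : 0 ≤ deriv f b - deriv f a)]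
    exact h2
  rcases le_total v w with hab | hab
  · exact key _ _ hab
  · rw [abs_sub_comm, abs_sub_comm v]; exact key _ _ hab

/-- A tuple of distinct reals gives a cycle on the line and a cycle in `ℝ^1` as soon as the
gradients prescribed by the method have all their difference quotients in `[μ, L]`. -/
lemma realise {K : ℕ} {μ L γ β : ℝ} (hμ : 0 < μ) (hμL : μ ≤ L) (hγ : 0 < γ)
    (x : ZMod K → ℝ) (hx : Function.Injective x) (hK : ∃ i j : ZMod K, i ≠ j)
    (h : ∀ i j : ZMod K, x i ≤ x j →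
      μ * γ * (x j - x i) ≤ ((1 + β) * x j - x (j + 1) - β * x (j - 1))
          - ((1 + β) * x i - x (i + 1) - β * x (i - 1)) ∧
      ((1 + β) * x j - x (j + 1) - β * x (j - 1))
          - ((1 + β) * x i - x (i + 1) - β * x (i - 1)) ≤ L * γ * (x j - x i)) :
    IsCycle ℝ μ L γ β K x ∧ IsCycle (EuclideanSpace ℝ (Fin 1)) μ L γ β K
      (fun i => EuclideanSpace.single (0 : Fin 1) (x i)) := by
  set G : ZMod K → ℝ := fun i => ((1 + β) * x i - x (i + 1) - β * x (i - 1)) / γ with hG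
  have hext : ∀ i, Function.extend x G 0 (x i) = G i := fun i => hx.extend_apply G 0 i
  obtain ⟨f, hf, hsl, heq⟩ := V1186.HB.interp hμL (Set.range x) (Function.extend x G 0) (by
    rintro _ ⟨i, rfl⟩ _ ⟨j, rfl⟩ hij
    rw [hext, hext]
    obtain ⟨h1, h2⟩ := h i j hij
    simp only [hG]
    rw [← sub_div]
    constructor
    · rw [le_div_iff₀ hγ]; linarith
    · rw [div_le_iff₀ hγ]; linarith)
  obtain ⟨i, j, hij⟩ := hK
  refine ⟨⟨⟨i, j, fun hh => hij (hx hh)⟩, f, line_mem hf hsl hμ.le, ?_⟩, ?_⟩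
  · intro i
    rw [gradient_eq_deriv', heq (x i) ⟨i, rfl⟩, hext, smul_eq_mul, smul_eq_mul]
    simp only [hG]
    field_simp
    ring
  refine ⟨⟨i, j, fun hh => hij (hx ?_)⟩, _, lift_mem hf hsl hμ.le, ?_⟩
  · have := congrArg (fun v : EuclideanSpace ℝ (Fin 1) => v 0) hh
    simpa using this
  · intro i
    rw [(gradient_lift hf _).gradient]
    have e0 : (EuclideanSpace.single (0 : Fin 1) (x i)) 0 = x i := by simp
    rw [e0, heq (x i) ⟨i, rfl⟩, hext]
    ext k
    fin_cases k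
    simp only [hG]
    simp
    field_simp
    ring

/-- **No fixed ordering suffices, for any `0 < μ ≤ L`.** For all `0 < μ ≤ L` there is a tuning
`(γ, β) ∈ Ω` with `γ > 0` and `0 < β ≤ 1` (with `β < 1` if `μ < L`, and with `γ L < 2 (1 + β)` if
`μ ≥ 5 L / 6`) for which there is a one-dimensional cycle of length five with distinct points, but
no `σ_K`-ordered one-dimensional cycle of any length `K ≥ 3`. -/
theorem result : ∀ μ L : ℝ, 0 < μ → μ ≤ L → ∃ γ β : ℝ,
    0 < γ ∧ 0 < β ∧ β ≤ 1 ∧ (μ < L → β < 1) ∧ (5 / 6 * L ≤ μ → γ * L < 2 * (1 + β)) ∧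
    (γ, β) ∈ Omega μ L ∧
    (∃ x : ZMod 5 → ℝ, Function.Injective x ∧ IsCycle ℝ μ L γ β 5 x) ∧
    ∀ K : ℕ, 3 ≤ K → ¬ ∃ x : ZMod K → ℝ, IsCycle ℝ μ L γ β K x ∧ SigmaOrdered K x := by
  intro μ L hμ hμL
  have hL : 0 < L := hμ.trans_le hμL
  have g1 := V1186.HB.golden_lb
  have g2 := V1186.HB.golden_ub
  have gsq := Real.goldenRatio_sq
  set g : ℝ := Real.goldenRatio with hg
  have hκ0 : 0 < μ / L := by positivity
  have hκ1 : μ / L ≤ 1 := (div_le_one hL).mpr hμL
  set β : ℝ := max (μ / L) (5 / 6) with hβ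
  have hβκ : μ / L ≤ β := le_max_left _ _
  have hβ56 : 5 / 6 ≤ β := le_max_right _ _
  have hβ0 : 0 < β := by linarith
  have hβ1 : β ≤ 1 := max_le hκ1 (by norm_num)
  have hγ : 0 < (2 + g) * β / μ := by positivity
  have hγμ : (2 + g) * β / μ * μ = (2 + g) * β := by field_simp
  have hγL : 2 + g ≤ (2 + g) * β / μ * L := by
    have h1 : (2 + g) * β / μ * L = (2 + g) * (β * L / μ) := by ring
    have h2 : 1 ≤ β * L / μ := by
      rw [le_div_iff₀ hμ]
      have := (div_le_iff₀ hL).mp hβκ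
      linarith
    rw [h1]; nlinarith
  have hcyc := realise (x := V1186.HB.x5 g) (γ := (2 + g) * β / μ) (β := β) hμ hμL hγ
      (V1186.HB.x5_inj (by linarith)) ⟨0, 1, by decide⟩ (by
    intro i j hij
    rw [V1186.HB.H5_eq, V1186.HB.H5_eq]
    obtain ⟨p1, p2⟩ := V1186.HB.H5_pairs gsq (by linarith) hβ0 hβ1 i j hij
    constructor
    · rw [mul_comm μ, hγμ]; exact p1
    · rw [mul_comm L]
      exact p2.trans (mul_le_mul_of_nonneg_right hγL (by linarith)))
  refine ⟨(2 + g) * β / μ, β, hγ, hβ0, hβ1, ?_, ?_, ⟨1, le_rfl, 5, by norm_num, _, hcyc.2⟩,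
    ⟨_, V1186.HB.x5_inj (by linarith), hcyc.1⟩, ?_⟩
  · intro h
    exact max_lt ((div_lt_one hL).mpr h) (by norm_num)
  · intro h
    have h1 : 5 / 6 ≤ μ / L := by rw [le_div_iff₀ hL]; linarith
    have h2 : β = μ / L := max_eq_left h1
    have h3 : (2 + g) * β / μ * L = 2 + g := by
      rw [h2]; field_simp
    rw [h3]; linarith
  · rintro K hK ⟨x, hc, hp⟩
    refine noOrdered hγ hμ hβ0 hβ1 ?_ hK hc hp
    rw [hγμ]
    nlinarith

end Pool.Agent.Results.MP_28939e_an.NoFixedOrdering
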